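import Pool.Agent.H211.HY.Stm2
import Pool.Graph.R_seed8.W746.LD.Koebe

/-!
# Inverse branches shrink (subtask SHR of the project HY of helper211)
-/

set_option autoImplicit false

open Topology Filter Metric Set MeasureTheory

namespace Pool.Agent.H390.HY211

open Pool.Agent.H790R3.RB Pool.Agent.H211.HY

theorem cr_pl (a b c e : ℂ × ℂ) : cr a c * cr b e - cr b c * cr a e = cr a b * cr c e := by
  unfold cr; ring

/-- parallelism is transitive -/
theorem cr_tr {a b c : ℂ × ℂ} (hb : b ≠ 0) (h1 : cr a b = 0) (h2 : cr b c = 0) : cr a c = 0 := by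
  unfold cr at *
  have e1 : b.1 * (a.1 * c.2 - a.2 * c.1) = 0 := by
    linear_combination a.1 * h2 + c.1 * h1
  have e2 : b.2 * (a.1 * c.2 - a.2 * c.1) = 0 := by
    linear_combination a.2 * h2 + c.2 * h1
  rcases mul_eq_zero.1 e1 with h | h
  · rcases mul_eq_zero.1 e2 with h' | h'
    · exact absurd (Prod.ext h h') hb
    · exact h'
  · exact h

theorem cr_swap {a b : ℂ × ℂ} (h : cr a b = 0) : cr b a = 0 := by
  unfold cr at *
  linear_combination -h

theorem N2_pos {p : ℂ × ℂ} (hp : p ≠ 0) : 0 < N2 p := by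
  unfold N2
  by_cases h1 : p.1 = 0
  · have h2 : p.2 ≠ 0 := fun h2 => hp (Prod.ext h1 h2)
    have := norm_pos_iff.2 h2
    positivity
  · have := norm_pos_iff.2 h1
    positivity

theorem cho_mul {p q : ℂ × ℂ} (hp : p ≠ 0) (hq : q ≠ 0) :
    ‖cr p q‖ = cho p q * (Real.sqrt (N2 p) * Real.sqrt (N2 q)) := by
  have h1 := N2_pos hp
  have h2 := N2_pos hq
  unfold cho
  rw [Real.sqrt_mul h1.le]
  have h3 := Real.sqrt_pos.2 h1
  have h4 := Real.sqrt_pos.2 h2
  field_simp

/-- the orthogonal direction -/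
theorem exists_orth {u : ℂ × ℂ} (hu : u ≠ 0) : ∃ p : ℂ × ℂ, p ≠ 0 ∧ cho u p = 1 := by
  have hN := N2_pos hu
  have e1 : cr u (-(starRingEnd ℂ) u.2, (starRingEnd ℂ) u.1) = ((N2 u : ℝ) : ℂ) := by
    unfold cr N2
    push_cast
    rw [← Complex.mul_conj', ← Complex.mul_conj']
    ring
  have e2 : N2 (-(starRingEnd ℂ) u.2, (starRingEnd ℂ) u.1) = N2 u := by
    unfold N2
    simp only [norm_neg, RCLike.norm_conj]
    ring
  refine ⟨(-(starRingEnd ℂ) u.2, (starRingEnd ℂ) u.1), ?_, ?_⟩
  · intro h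
    rw [h] at e1
    have : cr u 0 = 0 := by unfold cr; simp
    rw [this] at e1
    have h3 : (N2 u : ℝ) = 0 := by exact_mod_cast e1.symm
    exact hN.ne' h3
  · unfold cho
    rw [e1, e2, Complex.norm_real, Real.norm_of_nonneg hN.le, Real.sqrt_mul_self hN.le]
    exact div_self hN.ne'

theorem t_SHR (hC : S_CHO) : S_SHR := by
  intro d x hd hnd hleo R hR ε hε
  obtain ⟨tri, bas, -, -, big⟩ := hC
  obtain ⟨-, -, par, nz, -⟩ := big d x hd hnd
  obtain ⟨C0, c0, K⟩ := Pool.Agent.W746.LD.exists_KC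
  obtain ⟨M, hM1, hM⟩ := K.chain (η := R / 2) (B := R / 2) (by positivity) (by positivity)
  have hc0 := K.pos
  have hM0 : 0 < M := by linarith
  set η : ℝ := min (1 / 4) (ε * c0 * R / (8 * M)) with hηd
  have hη : 0 < η := lt_min (by norm_num) (by positivity)
  have hη4 : η ≤ 1 / 4 := min_le_left _ _
  have hηε : η ≤ ε * c0 * R / (8 * M) := min_le_right _ _
  obtain ⟨N₁, hN₁⟩ := hleo (1 / 2) (by norm_num)
  obtain ⟨N₂, hN₂⟩ := hleo η hη
  refine ⟨max N₁ N₂, ?_⟩
  intro n hn y g hg w hw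
  have hn1 : N₁ ≤ n := le_trans (le_max_left _ _) hn
  have hn2 : N₂ ≤ n := le_trans (le_max_right _ _) hn
  obtain ⟨hgd, hgv⟩ := hg
  have hyb : y ∈ ball y R := mem_ball_self hR
  have hu : g y ≠ 0 := (hgv y hyb).1
  have h10 : ((1 : ℂ), (0 : ℂ)) ≠ 0 := by
    intro h
    have := congrArg Prod.fst h
    simp at this
  -- directions mapped to infinity are omitted
  have omt : ∀ z ∈ ball y R, ∀ b : ℂ × ℂ, b ≠ 0 → cr ((hF x)^[n] b) (1, 0) = 0 →
      cr (g z) b ≠ 0 := by
    intro z hz b hb hb1 hb2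
    obtain ⟨hz0, hz1⟩ := hgv z hz
    have h1 := par n (g z) b hb2
    have h2 := cr_tr (nz n b hb) h1 hb1
    have h3 := cr_tr (nz n (g z) hz0) (cr_swap hz1) h2
    unfold cr at h3
    simp at h3
  obtain ⟨p, hp0, hp1⟩ := exists_orth hu
  obtain ⟨q, hq0, hq1, hq2⟩ := hN₁ n hn1 p (1, 0) hp0 h10
  obtain ⟨q', hq'0, hq'1, hq'2⟩ := hN₂ n hn2 (g y) (1, 0) hu h10
  have huq : 1 / 2 < cho (g y) q := by
    have h1 := tri (g y) q p hu hq0 hp0
    rw [hp1, (bas q p).1] at h1
    linarith
  have hq'q : 1 / 4 < cho q' q := by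
    have h1 := tri (g y) q' q hu hq'0 hq0
    linarith
  have crq : cr (g y) q ≠ 0 := omt y hyb q hq0 hq2
  set h : ℂ → ℂ := fun z => cr (g z) (g y) / cr (g z) q with hh
  have hhd : DifferentiableOn ℂ h (ball y R) := by
    have g1 : DifferentiableOn ℂ (fun z => (g z).1) (ball y R) := hgd.fst
    have g2 : DifferentiableOn ℂ (fun z => (g z).2) (ball y R) := hgd.snd
    apply DifferentiableOn.div
    · unfold cr
      exact (g1.mul_const _).sub (g2.mul_const _)
    · unfold cr
      exact (g1.mul_const _).sub (g2.mul_const _)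
    · intro z hz
      exact omt z hz q hq0 hq2
  have hinj : InjOn h (ball y R) := by
    intro z hz z' hz' he
    have a1 := omt z hz q hq0 hq2
    have a2 := omt z' hz' q hq0 hq2
    simp only [hh] at he
    rw [div_eq_div_iff a1 a2] at he
    have e1 := cr_pl (g z) (g z') (g y) q
    have e2 : cr (g z) (g z') * cr (g y) q = 0 := by
      rw [← e1, he]; ring
    have e3 : cr (g z) (g z') = 0 := (mul_eq_zero.1 e2).resolve_right crq
    obtain ⟨b0, b1⟩ := hgv z hz
    obtain ⟨b0', b1'⟩ := hgv z' hz'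
    have e4 := par n _ _ e3
    have e5 := cr_tr (nz n _ b0) (cr_swap b1) e4
    have e6 := cr_tr (nz n _ b0') e5 b1'
    unfold cr at e6
    simp only [mul_one, one_mul] at e6
    exact sub_eq_zero.1 e6
  have hU : Pool.Agent.W746.LD.Univ h y R := ⟨hhd, hinj⟩
  have hy0 : h y = 0 := by
    simp only [hh]
    have : cr (g y) (g y) = 0 := by unfold cr; ring
    rw [this, zero_div]
  set a : ℂ := cr q' (g y) / cr q' q with ha
  have crq' : cr q' q ≠ 0 := by
    intro h0
    have : cho q' q = 0 := by unfold cho; rw [h0]; simp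
    linarith
  have homit : ∀ z ∈ ball y R, h z ≠ a := by
    intro z hz he
    have a1 := omt z hz q hq0 hq2
    simp only [hh, ha] at he
    rw [div_eq_div_iff a1 crq'] at he
    have e1 := cr_pl (g z) q' (g y) q
    have e2 : cr (g z) q' * cr (g y) q = 0 := by
      rw [← e1, he]; ring
    have e3 : cr (g z) q' = 0 := (mul_eq_zero.1 e2).resolve_right crq
    exact omt z hz q' hq'0 hq'2 e3
  have k1 := K.komit h y R hR hU a homit
  rw [hy0, zero_sub, norm_neg] at k1
  have hwR : w ∈ ball y R := ball_subset_ball (by linarith) hw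
  have k2 := (hM h y (R / 2) (by positivity) le_rfl (by rw [add_halves]; exact hU) y
    (mem_closedBall_self (by positivity)) w (ball_subset_closedBall hw)).2
  rw [hy0, sub_zero] at k2
  -- sizes
  have hw0 := (hgv w hwR).1
  have crw := omt w hwR q hq0 hq2
  set su := Real.sqrt (N2 (g y)) with hsu
  set sq := Real.sqrt (N2 q) with hsq
  have hsu0 : 0 < su := Real.sqrt_pos.2 (N2_pos hu)
  have hsq0 : 0 < sq := Real.sqrt_pos.2 (N2_pos hq0)
  have n1 : ‖a‖ = cho q' (g y) / cho q' q * (su / sq) := by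
    rw [ha, norm_div, cho_mul hq'0 hu, cho_mul hq'0 hq0, ← hsu, ← hsq]
    have := Real.sqrt_pos.2 (N2_pos hq'0)
    have h4 : cho q' q ≠ 0 := by linarith
    field_simp
  have n2 : ‖h w‖ = cho (g w) (g y) / cho (g w) q * (su / sq) := by
    simp only [hh]
    rw [norm_div, cho_mul hw0 hu, cho_mul hw0 hq0, ← hsu, ← hsq]
    have := Real.sqrt_pos.2 (N2_pos hw0)
    have h4 : cho (g w) q ≠ 0 := by
      intro h0
      have := cho_mul hw0 hq0
      rw [h0, zero_mul] at this
      exact crw (norm_eq_zero.1 this)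
    field_simp
  have hs : 0 < su / sq := by positivity
  have hcw : 0 < cho (g w) q := by
    rcases (bas (g w) q).2.1.lt_or_eq with h0 | h0
    · exact h0
    · exfalso
      have := cho_mul hw0 hq0
      rw [← h0, zero_mul] at this
      exact crw (norm_eq_zero.1 this)
  have m1 : cho (g w) (g y) * (su / sq) ≤ ‖h w‖ := by
    rw [n2]
    apply mul_le_mul_of_nonneg_right _ hs.le
    rw [le_div_iff₀ hcw]
    have := (bas (g w) q).2.2
    have h5 := (bas (g w) (g y)).2.1
    nlinarith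
  have m2 : ‖a‖ < 4 * η * (su / sq) := by
    rw [n1]
    apply mul_lt_mul_of_pos_right _ hs
    rw [div_lt_iff₀ (by linarith), (bas q' (g y)).1]
    nlinarith
  have m3 : c0 * R * ‖h w‖ ≤ M * ‖a‖ := by
    calc c0 * R * ‖h w‖ ≤ c0 * R * (M * ‖deriv h y‖) := by gcongr
      _ = M * (c0 * R * ‖deriv h y‖) := by ring
      _ ≤ M * ‖a‖ := by gcongr
  have m4 : c0 * R * (cho (g w) (g y) * (su / sq)) < M * (4 * η * (su / sq)) := by
    calc c0 * R * (cho (g w) (g y) * (su / sq)) ≤ c0 * R * ‖h w‖ := by gcongr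
      _ ≤ M * ‖a‖ := m3
      _ < M * (4 * η * (su / sq)) := by gcongr
  have m5 : c0 * R * cho (g w) (g y) < M * (4 * η) := by
    have : (c0 * R * cho (g w) (g y)) * (su / sq) < (M * (4 * η)) * (su / sq) := by
      linarith [m4]
    exact lt_of_mul_lt_mul_right this hs.le
  have m6 : M * (4 * η) ≤ ε * c0 * R / 2 := by
    calc M * (4 * η) ≤ M * (4 * (ε * c0 * R / (8 * M))) := by gcongr
      _ = ε * c0 * R / 2 := by field_simp; ring
  have m7 : c0 * R * cho (g w) (g y) < c0 * R * ε := by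
    have : 0 < ε * c0 * R := by positivity
    linarith
  exact lt_of_mul_lt_mul_left m7 (by positivity)

end Pool.Agent.H390.HY211
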