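import Pool.Agent.H211.HY.Stm3
import Pool.Agent.H390.HY211.SHR

/-!
# Univalent branches which touch the Julia set shrink (subtask SHJ of the project HY of helper211)
-/

set_option autoImplicit false

open Topology Filter Metric Set MeasureTheory

namespace Pool.Agent.H390.HY211

open Pool.Agent.H790R3.RB Pool.Agent.H211.HY

/-- the point at infinity of the chart -/
theorem exists_inf (τ : Bool) : ∃ e : ℂ × ℂ, e ≠ 0 ∧ ∀ w : ℂ, cr (iot τ w) e ≠ 0 := by
  cases τ with
  | true =>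
    refine ⟨(1, 0), ?_, ?_⟩
    · intro h
      have := congrArg Prod.fst h
      simp at this
    · intro w
      simp [iot, cr]
  | false =>
    refine ⟨(0, 1), ?_, ?_⟩
    · intro h
      have := congrArg Prod.snd h
      simp at this
    · intro w
      simp [iot, cr]

theorem iot_ne (τ : Bool) (w : ℂ) : iot τ w ≠ 0 := by
  obtain ⟨e, -, he⟩ := exists_inf τ
  intro h
  apply he w
  rw [h]
  simp [cr]

theorem iot_inj (τ : Bool) {w w' : ℂ} (h : cr (iot τ w) (iot τ w') = 0) : w = w' := by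
  cases τ with
  | true =>
    simp only [iot, cr, if_true, mul_one, one_mul] at h
    exact sub_eq_zero.1 h
  | false =>
    simp [iot, cr] at h
    exact (sub_eq_zero.1 h).symm

theorem t_SHJ (hC : S_CHO) (hO : S_OMITJ) : S_SHJ := by
  intro d x hd hnd hce hleo
  obtain ⟨tri, bas, -, -, big⟩ := hC
  obtain ⟨-, -, par, nz, -⟩ := big d x hd hnd
  obtain ⟨δ₀, hδ₀, R₁, hR₁, hom⟩ := hO d x hd hnd hce hleo
  obtain ⟨C0, c0, K⟩ := Pool.Agent.W746.LD.exists_KC
  have hc0 := K.pos
  have hC0 : 0 < C0 := by linarith [K.one_le]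
  refine ⟨R₁, hR₁, ?_⟩
  intro ε hε
  set η : ℝ := min (δ₀ / 2) (ε * c0 * δ₀ / C0) with hηd
  have hη : 0 < η := lt_min (by positivity) (by positivity)
  have hη4 : η ≤ δ₀ / 2 := min_le_left _ _
  have hηε : η ≤ ε * c0 * δ₀ / C0 := min_le_right _ _
  obtain ⟨T, hT⟩ := hleo η hη
  refine ⟨T, ?_⟩
  intro n hn τ y R g hR hRR hg u hu hJ
  obtain ⟨hgd, hgv⟩ := hg
  have hyb : y ∈ ball y R := mem_ball_self hR
  have hub : u ∈ ball y R := ball_subset_ball (by linarith) hu
  have hgu : g u ≠ 0 := (hgv u hub).1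
  have hgy : g y ≠ 0 := (hgv y hyb).1
  -- omitted directions
  have omt : ∀ z ∈ ball y R, ∀ b : ℂ × ℂ, b ≠ 0 → cr ((hF x)^[n] b) (iot τ z) ≠ 0 →
      cr (g z) b ≠ 0 := by
    intro z hz b hb hb1 hb2
    obtain ⟨hz0, hz1⟩ := hgv z hz
    have h1 := par n (g z) b hb2
    exact hb1 (cr_tr (nz n (g z) hz0) (cr_swap h1) hz1)
  obtain ⟨q, hq0, hq1, hq2⟩ := hom n τ y (g u) hgu
  obtain ⟨e, he0, he1⟩ := exists_inf τ
  obtain ⟨q', hq'0, hq'1, hq'2⟩ := hT n hn (g u) e hgu hJ he0
  have omq : ∀ z ∈ ball y R, cr (g z) q ≠ 0 := fun z hz =>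
    omt z hz q hq0 (hq2 z (ball_subset_ball hRR hz))
  have omq' : ∀ z ∈ ball y R, cr (g z) q' ≠ 0 := fun z hz =>
    omt z hz q' hq'0 (fun h => he1 z (cr_tr (nz n q' hq'0) (cr_swap h) hq'2))
  have hq'q : δ₀ / 2 ≤ cho q' q := by
    have h1 := tri (g u) q' q hgu hq'0 hq0
    rw [(bas (g u) q).1] at h1
    linarith
  have crq : cr (g u) q ≠ 0 := omq u hub
  set h : ℂ → ℂ := fun z => cr (g z) (g u) / cr (g z) q with hh
  have hhd : DifferentiableOn ℂ h (ball y R) := by
    have g1 : DifferentiableOn ℂ (fun z => (g z).1) (ball y R) := hgd.fst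
    have g2 : DifferentiableOn ℂ (fun z => (g z).2) (ball y R) := hgd.snd
    apply DifferentiableOn.div
    · unfold cr
      exact (g1.mul_const _).sub (g2.mul_const _)
    · unfold cr
      exact (g1.mul_const _).sub (g2.mul_const _)
    · intro z hz
      exact omq z hz
  have hinj : InjOn h (ball y R) := by
    intro z hz z' hz' he
    have a1 := omq z hz
    have a2 := omq z' hz'
    simp only [hh] at he
    rw [div_eq_div_iff a1 a2] at he
    have e1 := cr_pl (g z) (g z') (g u) q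
    have e2 : cr (g z) (g z') * cr (g u) q = 0 := by
      rw [← e1, he]; ring
    have e3 : cr (g z) (g z') = 0 := (mul_eq_zero.1 e2).resolve_right crq
    obtain ⟨b0, b1⟩ := hgv z hz
    obtain ⟨b0', b1'⟩ := hgv z' hz'
    have e4 := par n _ _ e3
    have e5 := cr_tr (nz n _ b0) (cr_swap b1) e4
    have e6 := cr_tr (nz n _ b0') e5 b1'
    exact iot_inj τ e6
  have hsub : ball u (7 * R / 8) ⊆ ball y R := by
    intro z hz
    rw [mem_ball] at hz hu ⊢
    have := dist_triangle z u y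
    linarith
  have hU : Pool.Agent.W746.LD.Univ h u (7 * R / 8) := ⟨hhd.mono hsub, hinj.mono hsub⟩
  have hu0 : h u = 0 := by
    simp only [hh]
    have : cr (g u) (g u) = 0 := by unfold cr; ring
    rw [this, zero_div]
  set a : ℂ := cr q' (g u) / cr q' q with ha
  have crq' : cr q' q ≠ 0 := by
    intro h0
    have : cho q' q = 0 := by unfold cho; rw [h0]; simp
    linarith
  have homit : ∀ z ∈ ball u (7 * R / 8), h z ≠ a := by
    intro z hz he
    have hz' := hsub hz
    have a1 := omq z hz'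
    simp only [hh, ha] at he
    rw [div_eq_div_iff a1 crq'] at he
    have e1 := cr_pl (g z) q' (g u) q
    have e2 : cr (g z) q' * cr (g u) q = 0 := by
      rw [← e1, he]; ring
    have e3 : cr (g z) q' = 0 := (mul_eq_zero.1 e2).resolve_right crq
    exact omq' z hz' e3
  have k1 := K.komit h u (7 * R / 8) (by positivity) hU a homit
  rw [hu0, zero_sub, norm_neg] at k1
  have hyu : ‖y - u‖ < R / 8 := by
    rw [mem_ball, dist_comm, dist_eq_norm] at hu
    exact hu
  have k2 := K.lip (by positivity) hU (w := y) (by linarith)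
  rw [hu0, sub_zero] at k2
  -- sizes
  set su := Real.sqrt (N2 (g u)) with hsu
  set sq := Real.sqrt (N2 q) with hsq
  have hsu0 : 0 < su := Real.sqrt_pos.2 (N2_pos hgu)
  have hsq0 : 0 < sq := Real.sqrt_pos.2 (N2_pos hq0)
  have n1 : ‖a‖ = cho q' (g u) / cho q' q * (su / sq) := by
    rw [ha, norm_div, cho_mul hq'0 hgu, cho_mul hq'0 hq0, ← hsu, ← hsq]
    have := Real.sqrt_pos.2 (N2_pos hq'0)
    have h4 : cho q' q ≠ 0 := by
      have : 0 < cho q' q := by linarith
      exact this.ne'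
    field_simp
  have crw := omq y hyb
  have hcw : 0 < cho (g y) q := by
    rcases (bas (g y) q).2.1.lt_or_eq with h0 | h0
    · exact h0
    · exfalso
      have := cho_mul hgy hq0
      rw [← h0, zero_mul] at this
      exact crw (norm_eq_zero.1 this)
  have n2 : ‖h y‖ = cho (g y) (g u) / cho (g y) q * (su / sq) := by
    simp only [hh]
    rw [norm_div, cho_mul hgy hgu, cho_mul hgy hq0, ← hsu, ← hsq]
    have := Real.sqrt_pos.2 (N2_pos hgy)
    have h4 : cho (g y) q ≠ 0 := hcw.ne'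
    field_simp
  have hs : 0 < su / sq := by positivity
  have m1 : cho (g y) (g u) * (su / sq) ≤ ‖h y‖ := by
    rw [n2]
    apply mul_le_mul_of_nonneg_right _ hs.le
    rw [le_div_iff₀ hcw]
    have := (bas (g y) q).2.2
    have h5 := (bas (g y) (g u)).2.1
    nlinarith
  have m2 : ‖a‖ < 2 * η / δ₀ * (su / sq) := by
    rw [n1]
    apply mul_lt_mul_of_pos_right _ hs
    rw [div_lt_iff₀ (by linarith), (bas q' (g u)).1]
    have h6 : η ≤ 2 * η / δ₀ * cho q' q := by
      have : 2 * η / δ₀ * (δ₀ / 2) ≤ 2 * η / δ₀ * cho q' q := by gcongr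
      have h7 : 2 * η / δ₀ * (δ₀ / 2) = η := by field_simp
      linarith
    linarith
  have m3 : c0 * ‖h y‖ ≤ C0 * ‖a‖ / 2 := by
    have h7 : C0 * ‖deriv h u‖ * ‖y - u‖ ≤ C0 * ‖deriv h u‖ * (R / 8) := by gcongr
    have h8 : c0 * ‖h y‖ ≤ c0 * (C0 * ‖deriv h u‖ * (R / 8)) := by
      apply mul_le_mul_of_nonneg_left (le_trans k2 h7) hc0.le
    have h9 : c0 * (C0 * ‖deriv h u‖ * (R / 8)) = C0 / 7 * (c0 * (7 * R / 8) * ‖deriv h u‖) := by ring
    have h10 : C0 / 7 * (c0 * (7 * R / 8) * ‖deriv h u‖) ≤ C0 / 7 * ‖a‖ := by gcongr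
    have h11 : 0 ≤ C0 * ‖a‖ := by positivity
    rw [h9] at h8
    linarith
  have m4 : c0 * (cho (g y) (g u) * (su / sq)) < C0 * (2 * η / δ₀ * (su / sq)) / 2 := by
    calc c0 * (cho (g y) (g u) * (su / sq)) ≤ c0 * ‖h y‖ := by gcongr
      _ ≤ C0 * ‖a‖ / 2 := m3
      _ < C0 * (2 * η / δ₀ * (su / sq)) / 2 := by gcongr
  have m5 : c0 * cho (g y) (g u) < C0 * η / δ₀ := by
    have : (c0 * cho (g y) (g u)) * (su / sq) < (C0 * η / δ₀) * (su / sq) := by
      calc (c0 * cho (g y) (g u)) * (su / sq) = c0 * (cho (g y) (g u) * (su / sq)) := by ring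
        _ < C0 * (2 * η / δ₀ * (su / sq)) / 2 := m4
        _ = (C0 * η / δ₀) * (su / sq) := by ring
    exact lt_of_mul_lt_mul_right this hs.le
  have m6 : C0 * η / δ₀ ≤ c0 * ε := by
    calc C0 * η / δ₀ ≤ C0 * (ε * c0 * δ₀ / C0) / δ₀ := by gcongr
      _ = c0 * ε := by field_simp
  have m7 : c0 * cho (g y) (g u) < c0 * ε := lt_of_lt_of_le m5 m6
  rw [(bas (g u) (g y)).1]
  exact lt_of_mul_lt_mul_left m7 hc0.le

end Pool.Agent.H390.HY211
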